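import Mathlib
import Pool.Agent.Lib.MP_43d240_ag.H56.Defs

/-!
# Project PI, chapter PAR, module C4 (helper22)

A valuation ring of `k(E)` which contains `k` and `x` consists of the fractions `a / b` with
`a, b ∈ k[x, y]` and `b` a unit of the valuation ring.
-/

set_option autoImplicit false
set_option linter.unusedSectionVars false
set_option linter.style.haveILetI false

namespace PiPar

namespace C4

open WeierstrassCurve WeierstrassCurve.Affine

variable (k : Type*) [Field k]

/-- the class map -/
noncomputable abbrev M : Polynomial (Polynomial k) →+* (EF k).CoordinateRing :=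
  WeierstrassCurve.Affine.CoordinateRing.mk (EF k)

/-- `x` -/
noncomputable abbrev Xr : (EF k).CoordinateRing := M k (Polynomial.C Polynomial.X)
/-- `y` -/
noncomputable abbrev Yr : (EF k).CoordinateRing := M k Polynomial.X
/-- constants -/
noncomputable abbrev cr (c : k) : (EF k).CoordinateRing := M k (Polynomial.C (Polynomial.C c))

theorem eqR : Yr k ^ 2 = Xr k ^ 3 - Xr k := by
  have h : M k (EF k).polynomial = 0 := AdjoinRoot.mk_self
  simp only [WeierstrassCurve.Affine.polynomial, EF_a1, EF_a2, EF_a3, EF_a4, EF_a6, map_add, map_sub, map_mul, map_pow, map_zero,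
    map_neg, map_one, zero_mul, add_zero, neg_mul, one_mul] at h
  linear_combination h

theorem exists_pq (r : (EF k).CoordinateRing) :
    ∃ p q : Polynomial k, r = M k (Polynomial.C p) + M k (Polynomial.C q) * Yr k := by
  obtain ⟨p, q, h⟩ := WeierstrassCurve.Affine.CoordinateRing.exists_smul_basis_eq r
  refine ⟨p, q, ?_⟩
  rw [← h, WeierstrassCurve.Affine.CoordinateRing.smul,
    WeierstrassCurve.Affine.CoordinateRing.smul, mul_one]

theorem alg_cr (c : k) : algebraMap (EF k).CoordinateRing (FE k) (cr k c) =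
    algebraMap k (FE k) c := by
  rw [IsScalarTower.algebraMap_apply k (EF k).CoordinateRing (FE k)]
  rfl

theorem alg_inj : Function.Injective (algebraMap (EF k).CoordinateRing (FE k)) :=
  IsFractionRing.injective _ _

theorem split_poly (p : Polynomial k) (x1 : k) : ∃ p' : (EF k).CoordinateRing,
    M k (Polynomial.C p) = cr k (p.eval x1) + (Xr k - cr k x1) * p' := by
  obtain ⟨p', hp'⟩ := Polynomial.X_sub_C_dvd_sub_C_eval (a := x1) (p := p)
  refine ⟨M k (Polynomial.C p'), ?_⟩
  have h1 : p = Polynomial.C (p.eval x1) + (Polynomial.X - Polynomial.C x1) * p' := by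
    rw [← hp']; ring
  conv_lhs => rw [h1]
  simp only [map_add, map_mul, map_sub]

section main

variable {k}
variable (A : ValuationSubring (FE k)) (hk : ∀ c : k, algebraMap k (FE k) c ∈ A)
  (hx0 : x0 k ∈ A)

include hk hx0 in
theorem mem_A (r : (EF k).CoordinateRing) :
    algebraMap (EF k).CoordinateRing (FE k) r ∈ A := by
  have hp : ∀ p : Polynomial k, algebraMap (EF k).CoordinateRing (FE k) (M k (Polynomial.C p)) ∈ A := by
    intro p
    induction p using Polynomial.induction_on' with
    | add p q hp hq =>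
      rw [map_add, map_add, map_add]
      exact A.add_mem _ _ hp hq
    | monomial n a =>
      rw [← Polynomial.C_mul_X_pow_eq_monomial, map_mul, map_mul, map_mul, map_pow, map_pow, map_pow]
      refine A.mul_mem _ _ ?_ (pow_mem hx0 n)
      have := alg_cr k a
      rw [cr] at this
      rw [this]
      exact hk a
  have hy : algebraMap (EF k).CoordinateRing (FE k) (Yr k) ∈ A := by
    have e : algebraMap (EF k).CoordinateRing (FE k) (Yr k) ^ 2 =
        algebraMap (EF k).CoordinateRing (FE k) (Xr k) ^ 3 -
          algebraMap (EF k).CoordinateRing (FE k) (Xr k) := by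
      rw [← map_pow, eqR, map_sub, map_pow]
    rcases A.mem_or_inv_mem (algebraMap (EF k).CoordinateRing (FE k) (Yr k)) with h | h
    · exact h
    · by_cases h0 : algebraMap (EF k).CoordinateRing (FE k) (Yr k) = 0
      · rw [h0]; exact A.zero_mem
      · have e2 : algebraMap (EF k).CoordinateRing (FE k) (Yr k) =
            (algebraMap (EF k).CoordinateRing (FE k) (Xr k) ^ 3 -
              algebraMap (EF k).CoordinateRing (FE k) (Xr k)) *
            (algebraMap (EF k).CoordinateRing (FE k) (Yr k))⁻¹ := by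
          rw [← e, pow_two, mul_assoc, mul_inv_cancel₀ h0, mul_one]
        rw [e2]
        exact A.mul_mem _ _ (sub_mem (pow_mem hx0 3) hx0) h
  obtain ⟨p, q, rfl⟩ := exists_pq k r
  rw [map_add, map_mul]
  exact A.add_mem _ _ (hp p) (A.mul_mem _ _ (hp q) hy)

/-- `k[x, y] → A` -/
noncomputable def f0 : (EF k).CoordinateRing →+* A :=
  (algebraMap (EF k).CoordinateRing (FE k)).codRestrict A (mem_A A hk hx0)

theorem f0_coe (r : (EF k).CoordinateRing) :
    ((f0 A hk hx0 r : A) : FE k) = algebraMap (EF k).CoordinateRing (FE k) r := rfl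

/-- the centre of `A` on `k[x, y]` -/
noncomputable def pp : Ideal (EF k).CoordinateRing :=
  Ideal.comap (f0 A hk hx0) (IsLocalRing.maximalIdeal A)

instance : (pp A hk hx0).IsPrime := by
  unfold pp; infer_instance

theorem notMem_pp {r : (EF k).CoordinateRing} (hr : r ∉ pp A hk hx0) :
    algebraMap (EF k).CoordinateRing (FE k) r ≠ 0 ∧
      (algebraMap (EF k).CoordinateRing (FE k) r)⁻¹ ∈ A := by
  have h1 : IsUnit (f0 A hk hx0 r) := by
    by_contra h
    exact hr ((IsLocalRing.mem_maximalIdeal _).2 h)
  obtain ⟨u, hu⟩ := h1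
  have h2 : (algebraMap (EF k).CoordinateRing (FE k) r) * ((↑u⁻¹ : A) : FE k) = 1 := by
    rw [← f0_coe A hk hx0, ← hu, ← MulMemClass.coe_mul, Units.mul_inv]; rfl
  refine ⟨left_ne_zero_of_mul_eq_one h2, ?_⟩
  rw [inv_eq_of_mul_eq_one_right h2]
  exact (↑u⁻¹ : A).2

theorem mem_pp_of_mul {r s : (EF k).CoordinateRing} (hs : s ∈ pp A hk hx0) (f : FE k)
    (hf : f ∈ A) (h : algebraMap (EF k).CoordinateRing (FE k) r =
      f * algebraMap (EF k).CoordinateRing (FE k) s) : r ∈ pp A hk hx0 := by
  have h1 : f0 A hk hx0 r = ⟨f, hf⟩ * f0 A hk hx0 s := Subtype.ext h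
  show f0 A hk hx0 r ∈ IsLocalRing.maximalIdeal A
  rw [h1]
  exact Ideal.mul_mem_left _ _ hs

theorem cr_mem {c : k} (h : cr k c ∈ pp A hk hx0) : c = 0 := by
  by_contra hc
  have h1 : (1 : (EF k).CoordinateRing) ∈ pp A hk hx0 := by
    have : (1 : (EF k).CoordinateRing) = cr k c⁻¹ * cr k c := by
      rw [← map_mul, ← Polynomial.C_mul, ← Polynomial.C_mul, inv_mul_cancel₀ hc]
      simp
    rw [this]
    exact Ideal.mul_mem_left _ _ h
  exact (Ideal.ne_top_iff_one _).1 (Ideal.IsPrime.ne_top inferInstance) h1

/-- the local ring is principal: key -/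
theorem key [IsAlgClosed k] [CharZero k] : ∃ π : (EF k).CoordinateRing, π ∈ pp A hk hx0 ∧
    ∀ r ∈ pp A hk hx0, ∃ s r' : (EF k).CoordinateRing, s ∉ pp A hk hx0 ∧ s * r = π * r' := by
  by_cases hcase : ∃ x1 : k, Xr k - cr k x1 ∈ pp A hk hx0
  · obtain ⟨x1, hx1⟩ := hcase
    obtain ⟨y2, hy2⟩ := IsAlgClosed.exists_pow_nat_eq (x1 ^ 3 - x1) (n := 2) (by norm_num)
    have hfac : ∀ y1 : k, y1 ^ 2 = x1 ^ 3 - x1 → (Yr k - cr k y1) * (Yr k + cr k y1) =
        (Xr k - cr k x1) * (Xr k ^ 2 + Xr k * cr k x1 + cr k x1 ^ 2 - 1) := by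
      intro y1 hy1
      have e1 : cr k y1 ^ 2 = cr k x1 ^ 3 - cr k x1 := by
        rw [← map_pow, ← Polynomial.C_pow, ← Polynomial.C_pow, hy1]
        simp
      linear_combination eqR k - e1
    have hpt : ∃ y1 : k, y1 ^ 2 = x1 ^ 3 - x1 ∧ Yr k - cr k y1 ∈ pp A hk hx0 := by
      have h1 : (Yr k - cr k y2) * (Yr k + cr k y2) ∈ pp A hk hx0 := by
        rw [hfac y2 hy2]
        exact Ideal.mul_mem_right _ _ hx1
      rcases Ideal.IsPrime.mem_or_mem inferInstance h1 with h | h
      · exact ⟨y2, hy2, h⟩
      · refine ⟨-y2, by rw [neg_pow_two]; exact hy2, ?_⟩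
        have : Yr k - cr k (-y2) = Yr k + cr k y2 := by
          simp [cr]
        rw [this]; exact h
    obtain ⟨y1, hy1, hY⟩ := hpt
    have hval : ∀ p q : Polynomial k, M k (Polynomial.C p) + M k (Polynomial.C q) * Yr k ∈
        pp A hk hx0 → p.eval x1 + q.eval x1 * y1 = 0 := by
      intro p q h
      obtain ⟨p', hp'⟩ := split_poly k p x1
      obtain ⟨q', hq'⟩ := split_poly k q x1
      apply cr_mem A hk hx0
      have e : cr k (p.eval x1 + q.eval x1 * y1) =
          (M k (Polynomial.C p) + M k (Polynomial.C q) * Yr k) -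
          (Xr k - cr k x1) * (p' + q' * Yr k) - cr k (q.eval x1) * (Yr k - cr k y1) := by
        rw [hp', hq']
        simp only [cr, map_add, map_mul]
        ring
      rw [e]
      exact sub_mem (sub_mem h (Ideal.mul_mem_right _ _ hx1)) (Ideal.mul_mem_left _ _ hY)
    by_cases hy0 : y1 = 0
    · -- the uniformizer is `y`
      subst hy0
      have hw1 : (3 : k) * x1 ^ 2 - 1 ≠ 0 := by
        intro h
        have h2 : x1 * (x1 ^ 2 - 1) = 0 := by linear_combination -hy1
        rcases mul_eq_zero.1 h2 with h3 | h3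
        · rw [h3] at h; norm_num at h
        · have : (2 : k) = 0 := by linear_combination h - 3 * h3
          exact two_ne_zero this
      have hYY : Yr k ∈ pp A hk hx0 := by
        have : Yr k - cr k 0 = Yr k := by simp [cr]
        rwa [this] at hY
      have hf := hfac 0 hy1
      have hf' : (Xr k - cr k x1) * (Xr k ^ 2 + Xr k * cr k x1 + cr k x1 ^ 2 - 1) = Yr k ^ 2 := by
        rw [← hf]; simp [cr]; ring
      refine ⟨Yr k, hYY, fun r hr => ?_⟩
      obtain ⟨p, q, rfl⟩ := exists_pq k r
      have h0 := hval p q hr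
      rw [mul_zero, add_zero] at h0
      obtain ⟨p', hp'⟩ := split_poly k p x1
      rw [h0] at hp'
      refine ⟨Xr k ^ 2 + Xr k * cr k x1 + cr k x1 ^ 2 - 1,
        Yr k * p' + M k (Polynomial.C q) *
          (Xr k ^ 2 + Xr k * cr k x1 + cr k x1 ^ 2 - 1), ?_, ?_⟩
      · intro h
        apply hw1
        apply cr_mem A hk hx0
        have e : cr k (3 * x1 ^ 2 - 1) = (Xr k ^ 2 + Xr k * cr k x1 + cr k x1 ^ 2 - 1) -
            (Xr k - cr k x1) * (Xr k + 2 * cr k x1) := by
          simp only [cr, map_sub, map_mul, map_pow, map_one, map_ofNat]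
          ring
        rw [e]
        exact sub_mem h (Ideal.mul_mem_right _ _ hx1)
      · rw [hp']
        have e0 : cr k (0 : k) = 0 := by simp [cr]
        rw [e0]
        linear_combination p' * hf'
    · -- the uniformizer is `x - x1`
      refine ⟨Xr k - cr k x1, hx1, fun r hr => ?_⟩
      obtain ⟨p, q, rfl⟩ := exists_pq k r
      have h0 := hval p q hr
      obtain ⟨p', hp'⟩ := split_poly k p x1
      obtain ⟨q', hq'⟩ := split_poly k q x1
      have h1 : cr k (p.eval x1) = - (cr k (q.eval x1) * cr k y1) := by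
        have : p.eval x1 = - (q.eval x1 * y1) := by linear_combination h0
        rw [this]; simp [cr]
      refine ⟨Yr k + cr k y1, (p' + q' * Yr k) * (Yr k + cr k y1) + cr k (q.eval x1) *
          (Xr k ^ 2 + Xr k * cr k x1 + cr k x1 ^ 2 - 1), ?_, ?_⟩
      · intro h
        have h2 : cr k (2 * y1) ∈ pp A hk hx0 := by
          have e : cr k (2 * y1) = (Yr k + cr k y1) - (Yr k - cr k y1) := by
            simp only [cr, map_mul, map_ofNat]; ring
          rw [e]
          exact sub_mem h hY
        have h3 := cr_mem A hk hx0 h2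
        rcases mul_eq_zero.1 h3 with h4 | h4
        · exact two_ne_zero h4
        · exact hy0 h4
      · rw [hp', hq', h1]
        linear_combination (cr k (q.eval x1)) * hfac y1 hy1
  · -- the centre is zero
    push Not at hcase
    have hpoly : ∀ p : Polynomial k, M k (Polynomial.C p) ∈ pp A hk hx0 → p = 0 := by
      intro p hp
      by_contra hp0
      have hprime : (Ideal.comap ((M k).comp Polynomial.C) (pp A hk hx0)).IsPrime :=
        Ideal.IsPrime.comap _
      have hne : Ideal.comap ((M k).comp Polynomial.C) (pp A hk hx0) ≠ ⊥ := by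
        intro h
        have : p ∈ (⊥ : Ideal (Polynomial k)) := by
          rw [← h]; exact hp
        exact hp0 (by simpa using this)
      obtain ⟨w, hw, hwp⟩ := hprime.exists_mem_prime_of_ne_bot hne
      have hdeg : w.degree = 1 := IsAlgClosed.degree_eq_one_of_irreducible k hwp.irreducible
      obtain ⟨c, hc⟩ := IsAlgClosed.exists_root w (by rw [hdeg]; norm_num)
      have hassoc : Associated w (Polynomial.X - Polynomial.C c) := by
        have hd : Polynomial.X - Polynomial.C c ∣ w := Polynomial.dvd_iff_isRoot.2 hc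
        exact (((Polynomial.irreducible_X_sub_C c).associated_of_dvd hwp.irreducible hd)).symm
      apply hcase c
      have h1 : (Polynomial.X - Polynomial.C c) ∈
          Ideal.comap ((M k).comp Polynomial.C) (pp A hk hx0) :=
        Ideal.mem_of_dvd _ hassoc.dvd hw
      have h2 : (M k) (Polynomial.C (Polynomial.X - Polynomial.C c)) ∈ pp A hk hx0 := h1
      have e : Xr k - cr k c = (M k) (Polynomial.C (Polynomial.X - Polynomial.C c)) := by
        simp only [Xr, cr, map_sub]
      rw [e]; exact h2
    refine ⟨0, Ideal.zero_mem _, fun r hr => ⟨1, 0, ?_, ?_⟩⟩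
    · exact (Ideal.ne_top_iff_one _).1 (Ideal.IsPrime.ne_top inferInstance)
    · obtain ⟨p, q, rfl⟩ := exists_pq k r
      have h1 : M k (Polynomial.C (p ^ 2 - q ^ 2 * (Polynomial.X ^ 3 - Polynomial.X))) ∈
          pp A hk hx0 := by
        have e : M k (Polynomial.C (p ^ 2 - q ^ 2 * (Polynomial.X ^ 3 - Polynomial.X))) =
            (M k (Polynomial.C p) + M k (Polynomial.C q) * Yr k) *
            (M k (Polynomial.C p) - M k (Polynomial.C q) * Yr k) := by
          simp only [map_sub, map_mul, map_pow]
          linear_combination (M k (Polynomial.C q)) ^ 2 * eqR k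
        rw [e]
        exact Ideal.mul_mem_right _ _ hr
      have h2 := hpoly _ h1
      have h3 : p ^ 2 = q ^ 2 * (Polynomial.X ^ 3 - Polynomial.X) := sub_eq_zero.1 h2
      have hq : q = 0 := by
        by_contra hq0
        have hX : (Polynomial.X ^ 3 - Polynomial.X : Polynomial k).natDegree = 3 := by
          compute_degree!
        have hX0 : (Polynomial.X ^ 3 - Polynomial.X : Polynomial k) ≠ 0 := by
          intro h; rw [h] at hX; simp at hX
        have h4 := congrArg Polynomial.natDegree h3
        rw [Polynomial.natDegree_mul (pow_ne_zero 2 hq0) hX0, Polynomial.natDegree_pow,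
          Polynomial.natDegree_pow, hX] at h4
        omega
      have hp : p = 0 := by
        rw [hq] at h3
        simpa using h3
      rw [hp, hq]
      simp

end main

end C4

open C4 in
/-- C4 : the elements of a valuation ring of `FE k` which contains `k` and `x0` are fractions with a
unit denominator. -/
theorem mem_valuationSubring (k : Type*) [Field k] [IsAlgClosed k] [CharZero k]
    (A : ValuationSubring (FE k)) (hk : ∀ c : k, algebraMap k (FE k) c ∈ A)
    (hx0 : x0 k ∈ A) (f : FE k) (hf : f ∈ A) :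
    ∃ a b : (EF k).CoordinateRing, algebraMap _ (FE k) b ≠ 0 ∧
      f = algebraMap _ (FE k) a / algebraMap _ (FE k) b ∧ (algebraMap _ (FE k) b)⁻¹ ∈ A := by
  obtain ⟨π, hπ, hkey⟩ := key A hk hx0
  have hinj := alg_inj k
  obtain ⟨P, hPdef⟩ : ∃ P, P = pp A hk hx0 := ⟨_, rfl⟩
  haveI hPprime : P.IsPrime := by rw [hPdef]; infer_instance
  haveI : IsNoetherianRing (EF k).CoordinateRing :=
    inferInstanceAs (IsNoetherianRing (AdjoinRoot (EF k).polynomial))
  haveI : IsDomain (Localization.AtPrime P) :=
    IsLocalization.isDomain_localization (Ideal.primeCompl_le_nonZeroDivisors P)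
  haveI : IsNoetherianRing (Localization.AtPrime P) :=
    IsLocalization.isNoetherianRing P.primeCompl _ inferInstance
  have hLinj : Function.Injective (algebraMap (EF k).CoordinateRing (Localization.AtPrime P)) :=
    IsLocalization.injective _ (Ideal.primeCompl_le_nonZeroDivisors P)
  rw [← hPdef] at hπ hkey
  have hprinc : (IsLocalRing.maximalIdeal (Localization.AtPrime P)).IsPrincipal := by
    refine ⟨⟨algebraMap _ _ π, ?_⟩⟩
    apply le_antisymm
    · rw [← Localization.AtPrime.map_eq_maximalIdeal, Ideal.map_le_iff_le_comap]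
      intro r hr
      obtain ⟨s, r', hs, h⟩ := hkey r hr
      have hsu : IsUnit (algebraMap (EF k).CoordinateRing (Localization.AtPrime P) s) :=
        (IsLocalization.AtPrime.isUnit_to_map_iff _ P s).2 hs
      rw [Ideal.mem_comap, Ideal.submodule_span_eq, Ideal.mem_span_singleton]
      have h2 : algebraMap (EF k).CoordinateRing (Localization.AtPrime P) π ∣
          algebraMap (EF k).CoordinateRing (Localization.AtPrime P) s *
          algebraMap (EF k).CoordinateRing (Localization.AtPrime P) r := by
        rw [← map_mul, h, map_mul]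
        exact Dvd.intro _ rfl
      exact (hsu.dvd_mul_left).1 h2
    · rw [Ideal.submodule_span_eq, Ideal.span_le, Set.singleton_subset_iff]
      exact (IsLocalization.AtPrime.to_map_mem_maximal_iff _ P π).2 hπ
  haveI hval : ValuationRing (Localization.AtPrime P) :=
    ((tfae_of_isNoetherianRing_of_isLocalRing_of_isDomain (Localization.AtPrime P)).out 4 1).1
      hprinc
  obtain ⟨a, b, hb, hab⟩ := IsFractionRing.div_surjective (A := (EF k).CoordinateRing) f
  have hb0 : b ≠ 0 := nonZeroDivisors.ne_zero hb
  have hb' : algebraMap (EF k).CoordinateRing (FE k) b ≠ 0 := fun h => hb0 (hinj (by rw [h, map_zero]))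
  rcases ValuationRing.dvd_total (algebraMap (EF k).CoordinateRing (Localization.AtPrime P) b)
    (algebraMap (EF k).CoordinateRing (Localization.AtPrime P) a) with ⟨z, hz⟩ | ⟨z, hz⟩
  · obtain ⟨⟨c, t⟩, ht⟩ := IsLocalization.surj P.primeCompl z
    have h1 : t * a = b * c := by
      apply hLinj
      rw [map_mul, map_mul, hz, ← ht]
      ring
    have ht' : (t : (EF k).CoordinateRing) ∉ pp A hk hx0 := by rw [← hPdef]; exact t.2
    obtain ⟨ht0, htA⟩ := notMem_pp A hk hx0 ht'
    refine ⟨c, t, ht0, ?_, htA⟩
    rw [← hab, div_eq_div_iff hb' ht0, ← map_mul, ← map_mul, mul_comm a, h1, mul_comm]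
  · obtain ⟨⟨c, t⟩, ht⟩ := IsLocalization.surj P.primeCompl z
    have h1 : t * b = a * c := by
      apply hLinj
      rw [map_mul, map_mul, hz, ← ht]
      ring
    have ht' : (t : (EF k).CoordinateRing) ∉ pp A hk hx0 := by rw [← hPdef]; exact t.2
    obtain ⟨ht0, htA⟩ := notMem_pp A hk hx0 ht'
    have ht1 : (t : (EF k).CoordinateRing) ≠ 0 := fun h => ht0 (by rw [h, map_zero])
    have hc0 : c ≠ 0 := by
      intro h
      rw [h, mul_zero] at h1
      exact (mul_ne_zero ht1 hb0) h1
    have hc' : algebraMap (EF k).CoordinateRing (FE k) c ≠ 0 :=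
      fun h => hc0 (hinj (by rw [h, map_zero]))
    have hft : f * algebraMap (EF k).CoordinateRing (FE k) c =
        algebraMap (EF k).CoordinateRing (FE k) t := by
      rw [← hab, div_mul_eq_mul_div, div_eq_iff hb', ← map_mul, ← map_mul, h1]
    have hcP : c ∉ pp A hk hx0 := by
      intro hc
      exact ht' (mem_pp_of_mul A hk hx0 hc f hf hft.symm)
    obtain ⟨_, hcA⟩ := notMem_pp A hk hx0 hcP
    exact ⟨t, c, hc', by rw [eq_div_iff hc']; exact hft, hcA⟩

end PiPar
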