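import Mathlib
import Pool.Agent.Lib.MP_43d240_ag.PI.Base

/-!
# MP_43d240_ag, project PI, chapter CHART

The local lemma (`LocStatement`) for the localization of `C[X]` at the prime ideal `(X, γ)`
(`ChartStatement`).
-/

set_option autoImplicit false
set_option linter.unusedSectionVars false
set_option linter.style.haveILetI false

open scoped Polynomial
open Matrix

namespace Pool.Agent.PI.H22

section transfer

variable {B K : Type} [CommRing B] [IsDomain B] [Field K] (φ : B →+* K)
  (P : Ideal B) [hP : P.IsPrime]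

/-- the extension of `φ` to the localization at a prime ideal -/
noncomputable def ext (hφ : Function.Injective φ) : Localization.AtPrime P →+* K :=
  IsLocalization.lift (M := P.primeCompl) (g := φ) (fun s => by
    refine isUnit_iff_ne_zero.2 fun h => s.2 ?_
    have : (s : B) = 0 := hφ (by rw [h, map_zero])
    rw [this]; exact P.zero_mem)

variable (hφ : Function.Injective φ)

theorem ext_alg (x : B) : ext φ P hφ (algebraMap B (Localization.AtPrime P) x) = φ x :=
  IsLocalization.lift_eq _ _

theorem alg_inj : Function.Injective (algebraMap B (Localization.AtPrime P)) :=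
  IsLocalization.injective _ (Ideal.primeCompl_le_nonZeroDivisors P)

/-- representation of an element of the localization -/
theorem repr (x : Localization.AtPrime P) : ∃ a s : B, s ∉ P ∧
    algebraMap B (Localization.AtPrime P) s * x = algebraMap B (Localization.AtPrime P) a := by
  obtain ⟨⟨a, s⟩, h⟩ := IsLocalization.surj P.primeCompl x
  exact ⟨a, s, s.2, by rw [mul_comm]; exact h⟩

theorem unit_iff (x : B) : IsUnit (algebraMap B (Localization.AtPrime P) x) ↔ x ∉ P :=
  IsLocalization.AtPrime.isUnit_to_map_iff _ P x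

/-- divisibility by a prime of the localization -/
theorem dvd_iff {p : B} (hp : Prime p) (hpP : p ∈ P) (x : B) :
    algebraMap B (Localization.AtPrime P) p ∣ algebraMap B (Localization.AtPrime P) x ↔ p ∣ x := by
  constructor
  · rintro ⟨r, hr⟩
    obtain ⟨a, s, hs, h⟩ := repr P r
    have h1 : algebraMap B (Localization.AtPrime P) (s * x) =
        algebraMap B (Localization.AtPrime P) (p * a) := by
      rw [map_mul, map_mul, hr, ← h]; ring
    have h2 : s * x = p * a := alg_inj P h1
    rcases hp.dvd_or_dvd (Dvd.intro a h2.symm) with h3 | h3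
    · exact absurd (P.mem_of_dvd h3 hpP) hs
    · exact h3
  · rintro ⟨y, rfl⟩
    exact ⟨_, map_mul _ _ _⟩

theorem prime_map {p : B} (hp : Prime p) (hpP : p ∈ P) :
    Prime (algebraMap B (Localization.AtPrime P) p) := by
  refine ⟨fun h => hp.ne_zero (alg_inj P (by rw [h, map_zero])), fun h => ?_, fun x y hxy => ?_⟩
  · exact (unit_iff P p).1 h hpP
  · obtain ⟨a, s, hs, h⟩ := repr P x
    obtain ⟨b, t, ht, h'⟩ := repr P y
    have h1 : algebraMap B (Localization.AtPrime P) p ∣ algebraMap B (Localization.AtPrime P) (a * b) := by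
      rw [map_mul, ← h, ← h']
      obtain ⟨r, hr⟩ := hxy
      exact ⟨algebraMap B (Localization.AtPrime P) s * algebraMap B (Localization.AtPrime P) t * r, by
        linear_combination (algebraMap B (Localization.AtPrime P) s *
          algebraMap B (Localization.AtPrime P) t) * hr⟩
    have hsu : IsUnit (algebraMap B (Localization.AtPrime P) s) := (unit_iff P s).2 hs
    have htu : IsUnit (algebraMap B (Localization.AtPrime P) t) := (unit_iff P t).2 ht
    rcases hp.dvd_or_dvd ((dvd_iff P hp hpP _).1 h1) with h2 | h2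
    · left
      have := (dvd_iff P hp hpP a).2 h2
      rw [← h] at this
      exact (hsu.dvd_mul_left).1 this
    · right
      have := (dvd_iff P hp hpP b).2 h2
      rw [← h'] at this
      exact (htu.dvd_mul_left).1 this

variable {φ}

theorem int_iff {p : B} (hp : Prime p) (hpP : p ∈ P) (x : K) :
    IntAt (ext φ P hφ) (algebraMap B (Localization.AtPrime P) p) x ↔ IntAt φ p x := by
  constructor
  · rintro ⟨a, s, hs, h⟩
    obtain ⟨a', t, ht, h1⟩ := repr P a
    obtain ⟨s', u, hu, h2⟩ := repr P s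
    refine ⟨u * a', t * s', ?_, ?_⟩
    · intro h3
      rcases hp.dvd_or_dvd h3 with h4 | h4
      · exact ht (P.mem_of_dvd h4 hpP)
      · apply hs
        have := (dvd_iff P hp hpP _).2 h4
        rw [← h2] at this
        exact (((unit_iff P u).2 hu).dvd_mul_left).1 this
    · have e1 := congrArg (ext φ P hφ) h1
      have e2 := congrArg (ext φ P hφ) h2
      simp only [map_mul, ext_alg] at e1 e2
      rw [map_mul, map_mul, ← e1, ← e2, ← h]
      ring
  · rintro ⟨a, s, hs, h⟩
    refine ⟨algebraMap B _ a, algebraMap B _ s, fun h1 => hs ((dvd_iff P hp hpP _).1 h1), ?_⟩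
    rw [ext_alg, ext_alg, h]

theorem unitAt_iff {p : B} (hp : Prime p) (hpP : p ∈ P) (x : K) :
    UnitAt (ext φ P hφ) (algebraMap B (Localization.AtPrime P) p) x ↔ UnitAt φ p x := by
  constructor
  · rintro ⟨a, s, ha, hs, h⟩
    obtain ⟨a', t, ht, h1⟩ := repr P a
    obtain ⟨s', u, hu, h2⟩ := repr P s
    refine ⟨u * a', t * s', ?_, ?_, ?_⟩
    · intro h3
      rcases hp.dvd_or_dvd h3 with h4 | h4
      · exact hu (P.mem_of_dvd h4 hpP)
      · apply ha
        have := (dvd_iff P hp hpP _).2 h4
        rw [← h1] at this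
        exact (((unit_iff P t).2 ht).dvd_mul_left).1 this
    · intro h3
      rcases hp.dvd_or_dvd h3 with h4 | h4
      · exact ht (P.mem_of_dvd h4 hpP)
      · apply hs
        have := (dvd_iff P hp hpP _).2 h4
        rw [← h2] at this
        exact (((unit_iff P u).2 hu).dvd_mul_left).1 this
    · have e1 := congrArg (ext φ P hφ) h1
      have e2 := congrArg (ext φ P hφ) h2
      simp only [map_mul, ext_alg] at e1 e2
      rw [map_mul, map_mul, ← e1, ← e2, ← h]
      ring
  · rintro ⟨a, s, ha, hs, h⟩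
    refine ⟨algebraMap B _ a, algebraMap B _ s, fun h1 => ha ((dvd_iff P hp hpP _).1 h1),
      fun h1 => hs ((dvd_iff P hp hpP _).1 h1), ?_⟩
    rw [ext_alg, ext_alg, h]

theorem cong_iff {p : B} (hp : Prime p) (hpP : p ∈ P) (x y : K) :
    CongAt (ext φ P hφ) (algebraMap B (Localization.AtPrime P) p) x y ↔ CongAt φ p x y := by
  unfold CongAt
  simp only [int_iff P hφ hp hpP, ext_alg]

theorem sq_iff {p : B} (hp : Prime p) (hpP : p ∈ P) (x : K) :
    SqAt (ext φ P hφ) (algebraMap B (Localization.AtPrime P) p) x ↔ SqAt φ p x := by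
  unfold SqAt
  simp only [unitAt_iff P hφ hp hpP, cong_iff P hφ hp hpP]

theorem uni_iff {p : B} (hp : Prime p) (hpP : p ∈ P) (D : Matrix (Fin 6) (Fin 6) K) :
    Uni (ext φ P hφ) (algebraMap B (Localization.AtPrime P) p) D ↔ Uni φ p D := by
  unfold Uni
  simp only [unitAt_iff P hφ hp hpP, int_iff P hφ hp hpP]

theorem ram_iff {p : B} (hp : Prime p) (hpP : p ∈ P) (D : Matrix (Fin 6) (Fin 6) K) (v1 v2 : K) :
    Ram (ext φ P hφ) (algebraMap B (Localization.AtPrime P) p) D v1 v2 ↔ Ram φ p D v1 v2 := by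
  unfold Ram
  simp only [unitAt_iff P hφ hp hpP, ext_alg]

/-- `Uni` depends on the prime only up to associates -/
theorem uni_assoc {R : Type} [CommRing R] (ψ : R →+* K) {p q : R} (h : Associated p q)
    (D : Matrix (Fin 6) (Fin 6) K) (hp : Uni ψ p D) : Uni ψ q D := by
  have e : ∀ s : R, ¬ p ∣ s → ¬ q ∣ s := fun s hs hq => hs (h.dvd_iff_dvd_left.2 hq)
  obtain ⟨M, hM, h1, a, s, ha, hs, h2⟩ := hp
  refine ⟨M, hM, fun i j => ?_, a, s, e a ha, e s hs, h2⟩
  obtain ⟨a', s', hs', h3⟩ := h1 i j
  exact ⟨a', s', e s' hs', h3⟩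

theorem fracMap_ext (h : FracMap φ) : FracMap (ext φ P hφ) := by
  constructor
  · rw [injective_iff_map_eq_zero]
    intro x hx
    obtain ⟨a, s, hs, h1⟩ := repr P x
    have e1 := congrArg (ext φ P hφ) h1
    simp only [map_mul, ext_alg, hx, mul_zero] at e1
    have e2 : a = 0 := hφ (by rw [← e1, map_zero])
    rw [e2, map_zero] at h1
    exact (((unit_iff P s).2 hs).mul_right_eq_zero).1 h1
  · intro x
    obtain ⟨a, s, hs, h1⟩ := h.2 x
    exact ⟨algebraMap B _ a, algebraMap B _ s, by rwa [ext_alg], by rw [ext_alg, ext_alg, h1]⟩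

/-- every prime of the localization is associated to the image of a prime in `P` -/
theorem exists_prime [UniqueFactorizationMonoid B] {p : Localization.AtPrime P} (hp : Prime p) :
    ∃ p' : B, Prime p' ∧ p' ∈ P ∧ Associated (algebraMap B (Localization.AtPrime P) p') p := by
  obtain ⟨a, s, hs, h⟩ := repr P p
  have hsu : IsUnit (algebraMap B (Localization.AtPrime P) s) := (unit_iff P s).2 hs
  have hap : Associated (algebraMap B (Localization.AtPrime P) a) p := by
    rw [← h]
    exact (associated_unit_mul_left p _ hsu)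
  have hirr : Irreducible (algebraMap B (Localization.AtPrime P) a) :=
    (hap.irreducible_iff).2 (hp.irreducible (p := p))
  obtain ⟨u, m, hu, hm, hum⟩ :=
    (IsLocalization.toLocalizationMap P.primeCompl
      (Localization.AtPrime P)).eq_isUnit_map_mul_irreducible_of_irreducible_map (m := a) hirr
  have hu' : IsUnit (algebraMap B (Localization.AtPrime P) u) := hu
  have ham : Associated (algebraMap B (Localization.AtPrime P) m) p := by
    refine Associated.trans ?_ hap
    rw [hum, map_mul]
    exact (associated_unit_mul_left _ _ hu').symm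
  refine ⟨m, UniqueFactorizationMonoid.irreducible_iff_prime.1 hm, ?_, ham⟩
  by_contra hmP
  exact hp.not_isUnit (ham.isUnit ((unit_iff P m).2 hmP))

end transfer

section chart

variable {C : Type} [CommRing C] [IsDomain C]

/-- the prime ideal `(X, γ)` of `C[X]` -/
noncomputable def PP (γ : C) : Ideal C[X] := Ideal.comap Polynomial.constantCoeff (Ideal.span {γ})

theorem mem_PP (γ : C) (p : C[X]) : p ∈ PP γ ↔ γ ∣ p.coeff 0 := by
  rw [PP, Ideal.mem_comap, Ideal.mem_span_singleton]; rfl

theorem PP_prime {γ : C} (hγ : Prime γ) : (PP γ).IsPrime := by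
  haveI : (Ideal.span {γ}).IsPrime := (Ideal.span_singleton_prime hγ.ne_zero).2 hγ
  exact Ideal.IsPrime.comap _

theorem PP_eq {γ : C} {g : C[X]} (hg : Associated (g.coeff 0) γ) :
    PP γ = Ideal.span {Polynomial.X, g} := by
  apply le_antisymm
  · intro p hp
    rw [mem_PP] at hp
    have h1 : g.coeff 0 ∣ p.coeff 0 := hg.dvd.trans hp
    obtain ⟨q, hq⟩ := h1
    rw [Ideal.mem_span_pair]
    refine ⟨p.divX - Polynomial.C q * g.divX, Polynomial.C q, ?_⟩
    have e1 := Polynomial.divX_mul_X_add p
    have e2 := Polynomial.divX_mul_X_add g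
    have e3 : Polynomial.C (p.coeff 0) = Polynomial.C (g.coeff 0) * Polynomial.C q := by
      rw [← Polynomial.C_mul, hq]
    linear_combination e1 - Polynomial.C q * e2 - e3
  · rw [Ideal.span_le]
    intro p hp
    rcases hp with rfl | hp
    · show _ ∈ PP γ
      rw [mem_PP]; simp
    · rw [Set.mem_singleton_iff] at hp
      subst hp
      show _ ∈ PP γ
      rw [mem_PP]; exact hg.symm.dvd

end chart

/-- CHAPTER 4 (CHART) from CHAPTER 3 (LOC). -/
theorem chart_of_loc (hloc : LocStatement) : ChartStatement := by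
  intro C K _ _ _ _ _ φ hφ h2 hi γ hγ g hg hgγ d hd huni c f v1 v2 hc hram hcv hfv hnon hgcase
  haveI hPP : (PP γ).IsPrime := PP_prime hγ
  have hinj := hφ.1
  haveI : IsDomain (Localization.AtPrime (PP γ)) :=
    IsLocalization.isDomain_localization (Ideal.primeCompl_le_nonZeroDivisors (PP γ))
  haveI : IsNoetherianRing (Localization.AtPrime (PP γ)) :=
    IsLocalization.isNoetherianRing (PP γ).primeCompl _ inferInstance
  haveI : UniqueFactorizationMonoid (Localization.AtPrime (PP γ)) :=
    UniqueFactorizationMonoid.of_isLocalization (PP γ).primeCompl _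
  have hXprime : Prime (Polynomial.X : C[X]) := Polynomial.prime_X
  have hXP : (Polynomial.X : C[X]) ∈ PP γ := by rw [mem_PP]; simp
  have hgP : g ∈ PP γ := by rw [mem_PP]; exact hgγ.symm.dvd
  have hXg : ¬ (Polynomial.X : C[X]) ∣ g := by
    rw [Polynomial.X_dvd_iff]
    intro h
    rw [h] at hgγ
    exact hγ.ne_zero (hgγ.eq_zero_iff.1 rfl)
  have hres : ∀ F : C[X], (NonSq γ (F.coeff 0)) →
      ¬ IsSquare (IsLocalRing.residue (Localization.AtPrime (PP γ))
        (algebraMap C[X] (Localization.AtPrime (PP γ)) F)) := by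
    rintro F hF ⟨y, hy⟩
    obtain ⟨y', rfl⟩ := IsLocalRing.residue_surjective y
    obtain ⟨a, s, hs, h⟩ := repr (PP γ) y'
    rw [← map_mul, ← sub_eq_zero, ← map_sub, IsLocalRing.residue_eq_zero_iff] at hy
    have h1 : algebraMap C[X] (Localization.AtPrime (PP γ)) (F * s ^ 2 - a ^ 2) ∈
        IsLocalRing.maximalIdeal (Localization.AtPrime (PP γ)) := by
      have : algebraMap C[X] (Localization.AtPrime (PP γ)) (F * s ^ 2 - a ^ 2) =
          (algebraMap C[X] (Localization.AtPrime (PP γ)) s) ^ 2 *
          (algebraMap C[X] (Localization.AtPrime (PP γ)) F - y' * y') := by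
        rw [map_sub, map_mul, map_pow, map_pow, ← h]; ring
      rw [this]
      exact Ideal.mul_mem_left _ _ hy
    rw [IsLocalization.AtPrime.to_map_mem_maximal_iff _ (PP γ), mem_PP] at h1
    rw [mem_PP] at hs
    refine hF (a.coeff 0) (s.coeff 0) hs ?_
    have e : (F * s ^ 2 - a ^ 2).coeff 0 = F.coeff 0 * (s.coeff 0) ^ 2 - (a.coeff 0) ^ 2 := by
      rw [Polynomial.coeff_sub, Polynomial.mul_coeff_zero, pow_two, pow_two,
        Polynomial.mul_coeff_zero, Polynomial.mul_coeff_zero]; ring
    rwa [e] at h1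
  have key := hloc (Localization.AtPrime (PP γ)) K (ext φ (PP γ) hinj)
    (fracMap_ext (PP γ) hinj hφ)
    (by
      have := (h2.map (Polynomial.C : C →+* C[X])).map (algebraMap C[X] (Localization.AtPrime (PP γ)))
      rwa [map_ofNat, map_ofNat] at this)
    (by
      obtain ⟨i0, hi0⟩ := hi
      exact ⟨algebraMap C[X] _ (Polynomial.C i0), by
        rw [← map_pow, ← map_pow, hi0]; simp⟩)
    (algebraMap C[X] _ Polynomial.X) (algebraMap C[X] _ g)
    (prime_map (PP γ) hXprime hXP) (prime_map (PP γ) hg hgP)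
    (by rw [dvd_iff (PP γ) hXprime hXP]; exact hXg)
    (by
      have e1 : IsLocalRing.maximalIdeal (Localization.AtPrime (PP γ)) =
          Ideal.map (algebraMap C[X] (Localization.AtPrime (PP γ)))
            (Ideal.span {Polynomial.X, g}) :=
        (Localization.AtPrime.map_eq_maximalIdeal (I := PP γ)).symm.trans
          (congrArg (Ideal.map (algebraMap C[X] (Localization.AtPrime (PP γ)))) (PP_eq hgγ))
      rw [e1, Ideal.map_span, Set.image_pair])
    d hd
    (by
      intro p hp hpZ hpg
      obtain ⟨p', hp', hp'P, hpp'⟩ := exists_prime (PP γ) hp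
      refine uni_assoc _ hpp' _ ?_
      rw [uni_iff (PP γ) hinj hp' hp'P]
      refine huni p' hp' ((mem_PP γ p').1 hp'P) (fun h => hpZ ?_) (fun h => hpg ?_)
      · exact hpp'.symm.trans (h.map (algebraMap C[X] (Localization.AtPrime (PP γ))))
      · exact hpp'.symm.trans (h.map (algebraMap C[X] (Localization.AtPrime (PP γ)))))
    (algebraMap C[X] _ (Polynomial.C c)) (algebraMap C[X] _ (Polynomial.C f)) v1 v2
    (by
      rw [dvd_iff (PP γ) hXprime hXP, Polynomial.X_dvd_iff, Polynomial.coeff_C_zero]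
      exact hc)
    ((ram_iff (PP γ) hinj hXprime hXP _ _ _).2 hram)
    (by rw [sq_iff (PP γ) hinj hXprime hXP, ext_alg]; exact hcv)
    (by rw [sq_iff (PP γ) hinj hXprime hXP, ext_alg]; exact hfv)
    (hres _ (by rw [Polynomial.coeff_C_zero]; exact hnon))
    (by
      rcases hgcase with h | ⟨h, w1, w2, h3, h4, h5⟩
      · left
        exact (uni_iff (PP γ) hinj hg hgP _).2 h
      · right
        refine ⟨algebraMap C[X] _ h, w1, w2, (ram_iff (PP γ) hinj hg hgP _ _ _).2 h3, ?_, ?_⟩
        · rw [sq_iff (PP γ) hinj hg hgP, ext_alg]; exact h4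
        · rw [← map_mul]
          refine hres _ ?_
          rw [Polynomial.mul_coeff_zero, Polynomial.coeff_C_zero]
          exact h5)
  obtain ⟨n, e, r, he, hcr⟩ := key
  obtain ⟨e1, s, hs, h1⟩ := repr (PP γ) e
  obtain ⟨r1, t, ht, h3⟩ := repr (PP γ) r
  have h4 : t * s * Polynomial.C c = g ^ (2 * n) * (t * e1) + Polynomial.X * (s * r1) := by
    apply alg_inj (PP γ)
    simp only [map_mul, map_add, map_pow]
    rw [hcr, ← h1, ← h3]
    ring
  have h5 := congrArg (fun p : C[X] => p.coeff 0) h4
  simp only [Polynomial.coeff_add, Polynomial.mul_coeff_zero, Polynomial.coeff_C_zero,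
    Polynomial.coeff_X_zero, zero_mul, add_zero] at h5
  have h6 : (g ^ (2 * n)).coeff 0 = (g.coeff 0) ^ (2 * n) := by
    have := map_pow (Polynomial.constantCoeff : C[X] →+* C) g (2 * n)
    simpa [Polynomial.constantCoeff_apply] using this
  rw [h6] at h5
  rw [mem_PP] at hs ht
  have he1 : ¬ γ ∣ e1.coeff 0 := by
    rw [← mem_PP]
    intro h7
    have h8 : IsUnit (algebraMap C[X] (Localization.AtPrime (PP γ)) e1) := by
      rw [← h1]
      exact ((unit_iff (PP γ) s).2 (by rw [mem_PP]; exact hs)).mul he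
    exact (unit_iff (PP γ) e1).1 h8 h7
  obtain ⟨w, hw⟩ := hgγ.symm
  have h7 : γ ^ (2 * n) ∣ c := by
    have h8 : γ ^ (2 * n) ∣ (t.coeff 0 * s.coeff 0) * c := by
      rw [h5, ← hw, mul_pow]
      exact ⟨(w : C) ^ (2 * n) * (t.coeff 0 * e1.coeff 0), by ring⟩
    refine hγ.pow_dvd_of_dvd_mul_left _ ?_ h8
    intro h9
    rcases hγ.dvd_or_dvd h9 with h10 | h10
    · exact ht h10
    · exact hs h10
  obtain ⟨e', he'⟩ := h7
  refine ⟨n, e', ?_, he'⟩
  intro h8
  have h9 : (t.coeff 0 * s.coeff 0) * e' = (w : C) ^ (2 * n) * (t.coeff 0 * e1.coeff 0) := by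
    apply mul_left_cancel₀ (pow_ne_zero (2 * n) hγ.ne_zero)
    calc γ ^ (2 * n) * (t.coeff 0 * s.coeff 0 * e') = t.coeff 0 * s.coeff 0 * (γ ^ (2 * n) * e') := by ring
      _ = t.coeff 0 * s.coeff 0 * c := by rw [← he']
      _ = (g.coeff 0) ^ (2 * n) * (t.coeff 0 * e1.coeff 0) := h5
      _ = γ ^ (2 * n) * ((w : C) ^ (2 * n) * (t.coeff 0 * e1.coeff 0)) := by
        rw [← hw, mul_pow]; ring
  have h10 : γ ∣ (w : C) ^ (2 * n) * (t.coeff 0 * e1.coeff 0) := by
    rw [← h9]; exact Dvd.dvd.mul_left h8 _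
  rcases hγ.dvd_or_dvd h10 with h11 | h11
  · exact hγ.not_isUnit (isUnit_of_dvd_unit h11 ((Units.isUnit w).pow _))
  · rcases hγ.dvd_or_dvd h11 with h12 | h12
    · exact ht h12
    · exact he1 h12

end Pool.Agent.PI.H22
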